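import Pool.Agent.MWLQ.StmtsA

/-!
# Row mwlq TLD: the crossing of residues
-/

set_option autoImplicit false

namespace Pool.Agent.MWLQ.H12

open Pool.Agent.Helper14_MV
open Pool.Agent.Helper2_MV (RR)
open Pool.Agent.MWK (pre)
open Pool.Agent.MWGN (nn Tau gh)
open Pool.Agent.MWGQ (pw Z Gn E0 A0 P0)
open Pool.Agent.MWLE (pin sep con tl tll Sg t1 Fc Fb Fy Fx Fu Fz rz sf k0)

theorem pw1 (k c : ℕ) : pw k [c] = List.replicate k c := by
  unfold pw
  induction k with
  | zero => rfl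
  | succ k ih =>
    rw [List.replicate_succ, List.flatten_cons, ih, List.replicate_succ]
    rfl

theorem zadd (u v : ℕ) : Z (u + v) = Z u ++ Z v := List.replicate_append_replicate.symm

theorem exj {n : ℕ} (hn : 1 ≤ n) (a p : ℕ) : ∃ j, 2 ≤ j ∧ a + j ≡ p [MOD n] := by
  refine ⟨p + a * (n - 1) + 2 * n, by omega, ?_⟩
  obtain ⟨m, rfl⟩ : ∃ m, n = m + 1 := ⟨n - 1, by omega⟩
  have e : a + (p + a * (m + 1 - 1) + 2 * (m + 1)) = p + (m + 1) * (a + 2) := by
    rw [Nat.add_sub_cancel]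
    ring
  rw [e]
  exact (Nat.modEq_iff_dvd' (by omega)).2 ⟨a + 2, by omega⟩ |>.symm

section
variable {n : ℕ} {β : FIC}

theorem p1 (hPWX : MWGQ.PwxStmt) (hG : Gn n β) (c : ℕ) (q : List ℕ) {a b : ℕ} (ha : 2 ≤ a)
    (hb : 2 ≤ b) (h : a ≡ b [MOD n]) :
    RR β (List.replicate a c ++ q) (List.replicate b c ++ q) := by
  have h1 := (hPWX n β hG).1 [c] a b ha hb h
  rw [pw1, pw1] at h1
  exact h1.append (RR.refl q)

theorem p2 (hPWX : MWGQ.PwxStmt) (hG : Gn n β) (c : ℕ) (p u q : List ℕ) {a b : ℕ} (ha : 1 ≤ a)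
    (hb : 1 ≤ b) (h : a ≡ b [MOD n]) :
    RR β (p ++ c :: (u ++ (List.replicate a c ++ q)))
      (p ++ c :: (u ++ (List.replicate b c ++ q))) := by
  have h1 := (hPWX n β hG).2.1 [c] u a b ha hb h
  rw [pw1, pw1] at h1
  have h2 := (RR.refl p).append (h1.append (RR.refl q))
  simpa only [List.append_assoc, List.cons_append, List.nil_append] using h2

theorem tail (hPWX : MWGQ.PwxStmt) (hCNT : MWGQ.CntStmt) (hG : Gn n β) (U V U' V' : List ℕ)
    {k k' : ℕ} (hk : 1 ≤ k) (hk' : 1 ≤ k') (hc : U.count 1 = 0 ∧ V.count 1 = 0)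
    (hc' : U'.count 1 = 0 ∧ V'.count 1 = 0)
    (h : RR β (U ++ 1 :: (V ++ 2 :: List.replicate k 1))
      (U' ++ 1 :: (V' ++ 2 :: List.replicate k' 1))) :
    RR β (U ++ 1 :: (V ++ [2, 1])) (U' ++ 1 :: (V' ++ [2, 1])) := by
  have hm : k ≡ k' [MOD n] := by
    have h1 := (hCNT n β hG _ _ h 1).2.2
    simp only [List.count_append, List.count_cons, List.count_replicate, hc.1, hc.2, hc'.1,
      hc'.2] at h1
    have h2 : k + 1 ≡ k' + 1 [MOD n] := by simpa using h1
    exact Nat.ModEq.add_right_cancel' 1 h2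
  obtain ⟨l, -, hl⟩ := exj hG.pos k 1
  have hl' : k' + l ≡ 1 [MOD n] := (Nat.ModEq.add_right l hm).symm.trans hl
  have h1 := h.append (RR.refl (β := β) (List.replicate l 1))
  simp only [List.append_assoc, List.cons_append, List.replicate_append_replicate] at h1
  have h2 := p2 hPWX hG 1 U (V ++ [2]) [] (a := k + l) (b := 1) (by omega) (by omega) hl
  have h3 := p2 hPWX hG 1 U' (V' ++ [2]) [] (a := k' + l) (b := 1) (by omega) (by omega) hl'
  simp only [List.append_assoc, List.cons_append, List.append_nil, List.nil_append] at h2 h3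
  exact β.trans (β.trans (h2.symm) h1) h3

end

theorem tld (hPWX : MWGQ.PwxStmt) (hCNT : MWGQ.CntStmt) (hTLW : MWGQ.TlwStmt) : TldStmt := by
  intro n β hG a k a' b' k' ha hk hk' h
  have hn := hG.pos
  rcases Nat.eq_zero_or_pos b' with rfl | hb'
  · unfold Dq
    rw [Nat.add_zero, Nat.add_zero]
    exact RR.refl _
  have hA : A0 n β := (hTLW n β hG a 0 k a' b' k' hk hk').1 ha hb' h
  have h1 : RR β (Z a ++ 1 :: ([] ++ [2, 1])) (Z a' ++ 1 :: (Z b' ++ [2, 1])) :=
    tail hPWX hCNT hG (Z a) [] (Z a') (Z b') hk hk'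
      (by simp [List.count_replicate]) (by simp [List.count_replicate]) h
  have hm : a ≡ a' + b' [MOD n] := by
    have h2 := (hCNT n β hG _ _ h1 0).2.2
    simp only [List.count_append, List.count_cons, List.count_replicate, List.count_nil] at h2
    simpa using h2
  -- the left side is `~ (a, n)`
  have h2 : RR β (Z a ++ 1 :: ([] ++ [2, 1])) (Z a ++ 1 :: (Z n ++ [2, 1])) := by
    unfold A0 at hA
    have h3 := (RR.refl (β := β) (Z (a - 2))).append hA
    have e : Z a = Z (a - 2) ++ [0, 0] := by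
      have e1 : a = (a - 2) + 2 := by omega
      have e2 := zadd (a - 2) 2
      rw [← e1] at e2
      exact e2
    rw [e]
    simpa only [List.append_assoc, List.cons_append, List.nil_append] using h3
  have h3 : RR β (Z a ++ 1 :: (Z n ++ [2, 1])) (Z a' ++ 1 :: (Z b' ++ [2, 1])) :=
    β.trans h2.symm h1
  obtain ⟨j, hj, hjm⟩ := exj hn a b'
  have h4 : RR β (Z (j + a) ++ 1 :: (Z n ++ [2, 1])) (Z (j + a') ++ 1 :: (Z b' ++ [2, 1])) := by
    have h5 := (RR.refl (β := β) (Z j)).append h3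
    rw [zadd, zadd]
    simpa only [List.append_assoc] using h5
  have z0 : ∀ c, c * n ≡ 0 [MOD n] := fun c => (Nat.modEq_zero_iff_dvd).2 (Dvd.intro_left _ rfl)
  have m1 : 2 * n + b' ≡ j + a [MOD n] := by
    have h5 : 2 * n + b' ≡ 0 + b' [MOD n] := Nat.ModEq.add_right b' (z0 2)
    rw [Nat.zero_add] at h5
    rw [Nat.add_comm j a]
    exact h5.trans hjm.symm
  have m2 : j + a' ≡ 2 * n [MOD n] := by
    have h5 : (j + a') + b' ≡ 0 + b' [MOD n] := by
      have e : (j + a') + b' = (a' + b') + j := by ring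
      rw [e, Nat.zero_add]
      exact (Nat.ModEq.add_right j hm).symm.trans hjm
    exact (Nat.ModEq.add_right_cancel' b' h5).trans (z0 2).symm
  have m3 : b' ≡ n + b' [MOD n] := by
    have h5 : 1 * n + b' ≡ 0 + b' [MOD n] := Nat.ModEq.add_right b' (z0 1)
    rw [Nat.zero_add, one_mul] at h5
    exact h5.symm
  have h5 := p1 hPWX hG 0 (1 :: (Z n ++ [2, 1])) (a := 2 * n + b') (b := j + a) (by omega)
    (by omega) m1
  have h6 := p1 hPWX hG 0 (1 :: (Z b' ++ [2, 1])) (a := j + a') (b := 2 * n) (by omega)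
    (by omega) m2
  have h7 : RR β (Z (2 * n) ++ 1 :: (Z b' ++ [2, 1])) (Z (2 * n) ++ 1 :: (Z (n + b') ++ [2, 1])) := by
    have h8 := p2 hPWX hG 0 [] (Z (2 * n - 1) ++ [1]) [2, 1] (a := b') (b := n + b') hb'
      (by omega) m3
    have e : Z (2 * n) = 0 :: Z (2 * n - 1) := by
      have e1 : 2 * n = (2 * n - 1) + 1 := by omega
      rw [e1, Nat.add_sub_cancel]
      exact List.replicate_succ
    rw [e]
    simpa only [List.append_assoc, List.cons_append, List.nil_append] using h8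
  unfold Dq
  exact β.trans h5 (β.trans h4 (β.trans h6 h7))

end Pool.Agent.MWLQ.H12
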